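import Pool.Agent.Lib.MP_a8a68c_co.Main

/-!
An 11 x 23 Youden-type design with three stages and three layers.
-/

set_option autoImplicit false

namespace Pool.Agent.Results.MP_a8a68c_co.YoudenThreeThree

open Pool.Agent.Lib.MP_a8a68c_co

/-- There is an `11 × 23` Youden-type design `(𝓕, 𝓖)` with `|𝓕| = |𝓖| = 3`. -/
theorem result : ∃ 𝓕 𝓖 : Set (Setoid (Fin 253)),
    IsYoudenType 11 23 𝓕 𝓖 ∧ 𝓕.ncard = 3 ∧ 𝓖.ncard = 3 :=
  ⟨_, _, design, ncardF, ncardG⟩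

end Pool.Agent.Results.MP_a8a68c_co.YoudenThreeThree
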